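import Mathlib

/-! Calculus lemmas for the Levi form. -/

set_option autoImplicit false

open scoped Topology ContDiff
open Filter Complex

namespace Pool.Agent.H22Z.Rossi

section Levi
variable {E : Type*} [NormedAddCommGroup E] [NormedSpace ℂ E]

/-- Levi form (up to a factor) of a real function in the direction `w`. -/
noncomputable def L (g : E → ℝ) (z w : E) : ℝ :=
  fderiv ℝ (fderiv ℝ g) z w w + fderiv ℝ (fderiv ℝ g) z (I • w) (I • w)

theorem fderiv_fderiv_apply {F G : Type*} [NormedAddCommGroup F] [NormedSpace ℝ F]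
    [NormedAddCommGroup G] [NormedSpace ℝ G] (g : F → G) (z w v : F)
    (h : DifferentiableAt ℝ (fderiv ℝ g) z) :
    fderiv ℝ (fderiv ℝ g) z w v = fderiv ℝ (fun x => fderiv ℝ g x v) z w := by
  rw [fderiv_clm_apply h (differentiableAt_const v)]
  simp

theorem L_congr {g h : E → ℝ} {z : E} (H : g =ᶠ[𝓝 z] h) (w : E) : L g z w = L h z w := by
  unfold L
  rw [H.fderiv.fderiv_eq]

theorem second_comp (ψ : ℂ → ℝ) (hψ : ContDiff ℝ 2 ψ) (g : E → ℂ) (hg : ContDiff ℂ 2 g)
    (z w v : E) :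
    fderiv ℝ (fderiv ℝ (fun x => ψ (g x))) z w v =
      fderiv ℝ (fderiv ℝ ψ) (g z) (fderiv ℂ g z w) (fderiv ℂ g z v) +
        fderiv ℝ ψ (g z) (fderiv ℂ (fderiv ℂ g) z w v) := by
  have hgR : ContDiff ℝ 2 g := hg.restrict_scalars ℝ
  have hc : ContDiff ℝ 2 (fun x => ψ (g x)) := hψ.comp hgR
  have hd : ∀ x, DifferentiableAt ℂ g x := fun x => hg.differentiable (by norm_num) x
  have hdψ : ∀ p, DifferentiableAt ℝ ψ p := fun p => hψ.differentiable (by norm_num) p
  have hψ1 : ContDiff ℝ 1 (fderiv ℝ ψ) := hψ.fderiv_right (by norm_num)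
  have hg1 : ContDiff ℂ 1 (fderiv ℂ g) := hg.fderiv_right (by norm_num)
  have hc1 : ContDiff ℝ 1 (fderiv ℝ (fun x => ψ (g x))) := hc.fderiv_right (by norm_num)
  rw [fderiv_fderiv_apply _ _ _ _ (hc1.differentiable (by norm_num) z)]
  have e1 : (fun x => fderiv ℝ (fun x => ψ (g x)) x v) =
      fun x => fderiv ℝ ψ (g x) (fderiv ℂ g x v) := by
    funext x
    have := (hdψ (g x)).hasFDerivAt.comp x ((hd x).hasFDerivAt.restrictScalars ℝ)
    have h2 : fderiv ℝ (fun x => ψ (g x)) x = _ := this.fderiv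
    rw [h2]; rfl
  rw [e1]
  have hA : HasFDerivAt (fun x => fderiv ℝ ψ (g x))
      ((fderiv ℝ (fderiv ℝ ψ) (g z)).comp ((fderiv ℂ g z).restrictScalars ℝ)) z :=
    (hψ1.differentiable (by norm_num) (g z)).hasFDerivAt.comp z
      ((hd z).hasFDerivAt.restrictScalars ℝ)
  have hB0 : HasFDerivAt (fun x => fderiv ℂ g x v) ((fderiv ℂ (fderiv ℂ g) z).flip v) z := by
    have := (hg1.differentiable (by norm_num) z).hasFDerivAt.clm_apply (hasFDerivAt_const v z)
    simpa using this
  have hB := hB0.restrictScalars ℝ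
  have := (hA.clm_apply hB).fderiv
  rw [this]
  simp [add_comm]

theorem L_comp (ψ : ℂ → ℝ) (hψ : ContDiff ℝ 2 ψ) (g : E → ℂ) (hg : ContDiff ℂ 2 g)
    (z w : E) :
    L (fun x => ψ (g x)) z w = L ψ (g z) (fderiv ℂ g z w) := by
  unfold L
  rw [second_comp ψ hψ g hg, second_comp ψ hψ g hg]
  have h1 : fderiv ℂ (fderiv ℂ g) z (I • w) (I • w) = - fderiv ℂ (fderiv ℂ g) z w w := by
    simp only [map_smul, smul_apply, smul_eq_mul]
    rw [← mul_assoc, I_mul_I]; ring
  rw [h1, map_neg, map_smul]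
  ring

end Levi

/-- the profile derivative. -/
noncomputable def tau (s : ℝ) : ℝ := Real.smoothTransition (s - 1) / s

theorem sig_smooth : ContDiff ℝ ∞ (fun s : ℝ => Real.smoothTransition (s - 1)) :=
  Real.smoothTransition.contDiff.comp (contDiff_id.sub contDiff_const)

theorem tau_smooth : ContDiff ℝ ∞ tau := by
  rw [contDiff_iff_contDiffAt]
  intro s
  by_cases hs : s < 1
  · have : tau =ᶠ[𝓝 s] fun _ => 0 := by
      filter_upwards [Iio_mem_nhds hs] with x hx
      have : Real.smoothTransition (x - 1) = 0 :=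
        Real.smoothTransition.zero_of_nonpos (by simp at hx; linarith)
      simp [tau, this]
    exact contDiffAt_const.congr_of_eventuallyEq this
  · exact sig_smooth.contDiffAt.div contDiffAt_id (by simp at hs ⊢; linarith)

theorem tau_nonneg (s : ℝ) : 0 ≤ tau s := by
  by_cases hs : s ≤ 1
  · have : Real.smoothTransition (s - 1) = 0 :=
        Real.smoothTransition.zero_of_nonpos (by linarith)
    simp [tau, this]
  · exact div_nonneg (Real.smoothTransition.nonneg _) (by linarith)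

theorem tau_zero {s : ℝ} (hs : s ≤ 1) : tau s = 0 := by
  have : Real.smoothTransition (s - 1) = 0 :=
        Real.smoothTransition.zero_of_nonpos (by linarith)
  simp [tau, this]

theorem tau_pos {s : ℝ} (hs : 1 < s) : 0 < tau s :=
  div_pos (Real.smoothTransition.pos_of_pos (by linarith)) (by linarith)

theorem mul_tau (s : ℝ) : s * tau s = Real.smoothTransition (s - 1) := by
  by_cases hs : s = 0
  · subst hs
    have : Real.smoothTransition (0 - 1) = 0 :=
        Real.smoothTransition.zero_of_nonpos (by linarith)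
    simp only [this]; simp
  · unfold tau; field_simp

/-- the profile. -/
noncomputable def theta (s : ℝ) : ℝ := ∫ x in (1:ℝ)..s, tau x

theorem theta_hasDerivAt (s : ℝ) : HasDerivAt theta (tau s) s :=
  (tau_smooth.continuous.integral_hasStrictDerivAt 1 s).hasDerivAt

theorem theta_smooth : ContDiff ℝ ∞ theta := by
  rw [contDiff_infty_iff_deriv]
  refine ⟨fun s => (theta_hasDerivAt s).differentiableAt, ?_⟩
  have : deriv theta = tau := funext fun s => (theta_hasDerivAt s).deriv
  rw [this]; exact tau_smooth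

theorem theta_zero {s : ℝ} (hs : s ≤ 1) : theta s = 0 := by
  unfold theta
  rw [intervalIntegral.integral_congr (g := fun _ => 0)]
  · simp
  · intro x hx
    rw [Set.uIcc_of_ge hs] at hx
    exact tau_zero hx.2

theorem theta_pos {s : ℝ} (hs : 1 < s) : 0 < theta s :=
  intervalIntegral.intervalIntegral_pos_of_pos_on
    (tau_smooth.continuous.intervalIntegrable _ _) (fun _ hx => tau_pos hx.1) hs

theorem theta_nonneg (s : ℝ) : 0 ≤ theta s := by
  by_cases hs : s ≤ 1
  · rw [theta_zero hs]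
  · exact (theta_pos (by linarith)).le

/-- the radial subharmonic function. -/
noncomputable def psi (p : ℂ) : ℝ := theta (p.re ^ 2 + p.im ^ 2)

theorem N_smooth : ContDiff ℝ ∞ (fun p : ℂ => p.re ^ 2 + p.im ^ 2) :=
  (reCLM.contDiff.pow 2).add (imCLM.contDiff.pow 2)

theorem psi_smooth : ContDiff ℝ ∞ psi := theta_smooth.comp N_smooth

theorem N_hasFDerivAt (p : ℂ) : HasFDerivAt (fun p : ℂ => p.re ^ 2 + p.im ^ 2)
    ((2 * p.re) • reCLM + (2 * p.im) • imCLM) p := by
  have h1 := (reCLM.hasFDerivAt (x := p)).pow 2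
  have h2 := (imCLM.hasFDerivAt (x := p)).pow 2
  have h3 := h1.add h2
  have e : ((2 * p.re) • reCLM + (2 * p.im) • imCLM : ℂ →L[ℝ] ℝ) =
      (2 • reCLM p ^ (2 - 1)) • reCLM + (2 • imCLM p ^ (2 - 1)) • imCLM := by
    ext v <;> simp
  rw [e]
  exact h3

theorem fderiv_psi (p v : ℂ) :
    fderiv ℝ psi p v = tau (p.re ^ 2 + p.im ^ 2) * (2 * p.re * v.re + 2 * p.im * v.im) := by
  have := (theta_hasDerivAt (p.re ^ 2 + p.im ^ 2)).comp_hasFDerivAt p (N_hasFDerivAt p)
  have h2 : fderiv ℝ psi p = _ := this.fderiv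
  rw [h2]; simp; ring

theorem second_psi (p w v : ℂ) :
    fderiv ℝ (fderiv ℝ psi) p w v =
      deriv tau (p.re ^ 2 + p.im ^ 2) * (2 * p.re * w.re + 2 * p.im * w.im) *
        (2 * p.re * v.re + 2 * p.im * v.im) +
      tau (p.re ^ 2 + p.im ^ 2) * (2 * w.re * v.re + 2 * w.im * v.im) := by
  have h1 : ContDiff ℝ 1 (fderiv ℝ psi) := psi_smooth.fderiv_right (by norm_cast)
  rw [fderiv_fderiv_apply _ _ _ _ (h1.differentiable (by norm_num) p)]
  simp only [fderiv_psi]
  have hA := ((tau_smooth.differentiable (by simp)) (p.re ^ 2 + p.im ^ 2)).hasDerivAt.comp_hasFDerivAt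
    p (N_hasFDerivAt p)
  have hB : HasFDerivAt (fun p : ℂ => 2 * p.re * v.re + 2 * p.im * v.im)
      ((2 * v.re) • reCLM + (2 * v.im) • imCLM) p := by
    have := ((2 * v.re) • reCLM + (2 * v.im) • imCLM : ℂ →L[ℝ] ℝ).hasFDerivAt (x := p)
    convert this using 1
    funext q; simp; ring
  have := (hA.mul hB).fderiv
  have h3 : fderiv ℝ (fun x : ℂ => tau (x.re ^ 2 + x.im ^ 2) * (2 * x.re * v.re + 2 * x.im * v.im)) p
    = _ := this
  rw [h3]; simp; ring

theorem L_psi (p a : ℂ) :
    L psi p a = 4 * (a.re ^ 2 + a.im ^ 2) *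
      deriv (fun s : ℝ => Real.smoothTransition (s - 1)) (p.re ^ 2 + p.im ^ 2) := by
  have h : (fun s : ℝ => Real.smoothTransition (s - 1)) = fun s => s * tau s :=
    funext fun s => (mul_tau s).symm
  have hd : deriv (fun s : ℝ => s * tau s) (p.re ^ 2 + p.im ^ 2) =
      tau (p.re ^ 2 + p.im ^ 2) + (p.re ^ 2 + p.im ^ 2) * deriv tau (p.re ^ 2 + p.im ^ 2) := by
    have := (hasDerivAt_id (p.re ^ 2 + p.im ^ 2)).mul
      ((tau_smooth.differentiable (by simp)) (p.re ^ 2 + p.im ^ 2)).hasDerivAt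
    have h2 : deriv (fun s : ℝ => s * tau s) (p.re ^ 2 + p.im ^ 2) = _ := this.deriv
    rw [h2]; simp
  rw [h, hd]
  unfold L
  rw [second_psi, second_psi]
  simp
  ring

theorem L_psi_nonneg (p a : ℂ) : 0 ≤ L psi p a := by
  rw [L_psi]
  refine mul_nonneg (by positivity) ?_
  apply Monotone.deriv_nonneg
  intro x y hxy
  exact Real.smoothTransition.monotone (by linarith)

theorem L_psi_zero (p : ℂ) : L psi p 0 = 0 := by
  rw [L_psi]; simp

theorem sq_eq (p : ℂ) : p.re ^ 2 + p.im ^ 2 = ‖p‖ ^ 2 := by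
  rw [Complex.sq_norm, normSq_apply]; ring

theorem L_psi_out (p a : ℂ) (h : ‖p‖ < 1 ∨ 2 < ‖p‖) : L psi p a = 0 := by
  rw [L_psi, sq_eq p]
  have : deriv (fun s : ℝ => Real.smoothTransition (s - 1)) (‖p‖ ^ 2) = 0 := by
    rcases h with h | h
    · have h1 : ‖p‖ ^ 2 < 1 := by nlinarith [norm_nonneg p]
      have : (fun s : ℝ => Real.smoothTransition (s - 1)) =ᶠ[𝓝 (‖p‖ ^ 2)] fun _ => 0 := by
        filter_upwards [Iio_mem_nhds h1] with x hx
        exact Real.smoothTransition.zero_of_nonpos (by simp at hx; linarith)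
      rw [this.deriv_eq]; simp
    · have h1 : 2 < ‖p‖ ^ 2 := by nlinarith [norm_nonneg p]
      have : (fun s : ℝ => Real.smoothTransition (s - 1)) =ᶠ[𝓝 (‖p‖ ^ 2)] fun _ => 1 := by
        filter_upwards [Ioi_mem_nhds h1] with x hx
        exact Real.smoothTransition.one_of_one_le (by simp at hx; linarith)
      rw [this.deriv_eq]; simp
  rw [this]; simp

theorem psi_nonneg (p : ℂ) : 0 ≤ psi p := theta_nonneg _

theorem psi_zero : psi 0 = 0 := theta_zero (by simp)

theorem norm_le_of_psi {p : ℂ} (h : psi p = 0) : ‖p‖ ≤ 1 := by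
  by_contra hc
  have h1 : 1 < p.re ^ 2 + p.im ^ 2 := by rw [sq_eq]; nlinarith
  exact (theta_pos h1).ne' h

section Series
variable {E : Type*} [NormedAddCommGroup E] [NormedSpace ℂ E]

theorem exists_series (f : ℕ → E → ℝ) (hf : ∀ n, ContDiff ℝ ∞ (f n))
    (hc : ∀ n, HasCompactSupport (f n)) :
    ∃ κ : ℕ → ℝ, (∀ n, 0 < κ n) ∧ ContDiff ℝ ∞ (fun x => ∑' n, κ n * f n x) ∧
      (∀ x, Summable (fun n => κ n * f n x)) ∧
      ∀ z w, HasSum (fun n => κ n * L (f n) z w) (L (fun x => ∑' n, κ n * f n x) z w) := by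
  have hb : ∀ n k : ℕ, ∃ M : ℝ, 0 ≤ M ∧ ∀ x, ‖iteratedFDeriv ℝ k (f n) x‖ ≤ M := by
    intro n k
    obtain ⟨M, hM⟩ := ((hf n).continuous_iteratedFDeriv (m := k) (by exact_mod_cast le_top)).bounded_above_of_compact_support ((hc n).iteratedFDeriv k)
    exact ⟨M, (norm_nonneg _).trans (hM 0), hM⟩
  choose M M0 hM using hb
  set R : ℕ → ℝ := fun n => 1 + ∑ k ∈ Finset.range (n + 1), M n k with hR
  have Rpos : ∀ n, 0 < R n := fun n => by
    have : 0 ≤ ∑ k ∈ Finset.range (n + 1), M n k := Finset.sum_nonneg fun k _ => M0 n k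
    simp only [hR]; linarith
  have RM : ∀ n k, k ≤ n → M n k ≤ R n := fun n k hk => by
    have : M n k ≤ ∑ k ∈ Finset.range (n + 1), M n k :=
      Finset.single_le_sum (fun k _ => M0 n k) (Finset.mem_range.2 (by omega))
    simp only [hR]; linarith
  set κ : ℕ → ℝ := fun n => (1 / 2) ^ n / R n with hκ
  have κpos : ∀ n, 0 < κ n := fun n => div_pos (by positivity) (Rpos n)
  have hv : ∀ k : ℕ, Summable (fun n => κ n * M n k) := by
    intro k
    refine Summable.of_norm_bounded_eventually_nat (g := fun n => (1 / 2 : ℝ) ^ n)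
      summable_geometric_two ?_
    filter_upwards [eventually_ge_atTop k] with n hn
    rw [Real.norm_of_nonneg (mul_nonneg (κpos n).le (M0 n k))]
    simp only [hκ]
    rw [div_mul_eq_mul_div, div_le_iff₀ (Rpos n)]
    exact mul_le_mul_of_nonneg_left (RM n k hn) (by positivity)
  have hF : ∀ n, ContDiff ℝ ((⊤ : ℕ∞) : WithTop ℕ∞) (fun x => κ n * f n x) :=
    fun n => contDiff_const.mul (hf n)
  have hit : ∀ (k n : ℕ) (x : E), iteratedFDeriv ℝ k (fun x => κ n * f n x) x =
      κ n • iteratedFDeriv ℝ k (f n) x := by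
    intro k n x
    exact iteratedFDeriv_const_smul_apply' (a := κ n)
      (((hf n).of_le (by exact_mod_cast le_top)).contDiffAt)
  have hbd : ∀ (k n : ℕ) (x : E), ‖iteratedFDeriv ℝ k (fun x => κ n * f n x) x‖ ≤ κ n * M n k := by
    intro k n x
    rw [hit, norm_smul, Real.norm_of_nonneg (κpos n).le]
    exact mul_le_mul_of_nonneg_left (hM n k x) (κpos n).le
  refine ⟨κ, κpos, ?_, ?_, ?_⟩
  · exact contDiff_tsum (N := ⊤) (v := fun k n => κ n * M n k) hF (fun k _ => hv k)
      (fun k n x _ => hbd k n x)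
  · intro x
    refine Summable.of_norm_bounded (hv 0) fun n => ?_
    have := hbd 0 n x
    rwa [norm_iteratedFDeriv_zero] at this
  · intro z w
    have h2 := iteratedFDeriv_tsum_apply (N := ⊤) (v := fun k n => κ n * M n k) hF
      (fun k _ => hv k) (fun k n x _ => hbd k n x) (k := 2) le_top z
    have hs : Summable (fun n => iteratedFDeriv ℝ 2 (fun x => κ n * f n x) z) :=
      Summable.of_norm_bounded (hv 2) fun n => hbd 2 n z
    have key : ∀ a : E, HasSum (fun n => κ n * fderiv ℝ (fderiv ℝ (f n)) z a a)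
        (fderiv ℝ (fderiv ℝ (fun x => ∑' n, κ n * f n x)) z a a) := by
      intro a
      have h3 := (ContinuousMultilinearMap.apply ℝ (fun _ : Fin 2 => E) ℝ ![a, a]).hasSum hs.hasSum
      rw [← h2] at h3
      simp only [ContinuousMultilinearMap.apply_apply, hit, smul_apply,
        iteratedFDeriv_two_apply, smul_eq_mul] at h3
      simpa using h3
    have := (key w).add (key (I • w))
    unfold L
    convert this using 2
    ring

end Series

end Pool.Agent.H22Z.Rossi
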