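import Mathlib

/-! Nested polynomial tubes (Wermer type) whose intersection contains no holomorphic disc. -/

set_option autoImplicit false

open scoped Topology ContDiff
open Filter Complex Metric

namespace Pool.Agent.H22Z.Rossi

abbrev E3 := Fin 3 → ℂ

theorem exists_enum : ∃ (ι : ℕ → Fin 3) (a : ℕ → ℂ), (∀ n, ι n ≠ 2) ∧ (∀ n, ‖a n‖ ≤ 1) ∧
    ∀ i : Fin 3, i ≠ 2 → ∀ V : Set ℂ, IsOpen V → V.Nonempty → V ⊆ ball 0 1 →
      ∀ N : ℕ, ∃ n, N ≤ n ∧ ι n = i ∧ a n ∈ V := by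
  classical
  let c : ℕ → ℂ := TopologicalSpace.denseSeq ℂ
  have hc : DenseRange c := TopologicalSpace.denseRange_denseSeq ℂ
  refine ⟨fun n => if n % 2 = 0 then 0 else 1,
    fun n => if ‖c (Nat.unpair (n / 2)).1‖ ≤ 1 then c (Nat.unpair (n / 2)).1 else 0, ?_, ?_, ?_⟩
  · intro n
    by_cases h : n % 2 = 0 <;> simp [h]
  · intro n
    by_cases h : ‖c (Nat.unpair (n / 2)).1‖ ≤ 1 <;> simp [h]
  · intro i hi V hV hne hsub N
    obtain ⟨j, hj⟩ := hc.exists_mem_open hV hne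
    have hj1 : ‖c j‖ ≤ 1 := by
      have := hsub hj
      simp at this; exact this.le
    have hN := Nat.right_le_pair j N
    fin_cases i
    · refine ⟨2 * Nat.pair j N, by omega, by simp, ?_⟩
      have : 2 * Nat.pair j N / 2 = Nat.pair j N := by omega
      simp [this, hj1, hj]
    · refine ⟨2 * Nat.pair j N + 1, by omega, ?_, ?_⟩
      · have : (2 * Nat.pair j N + 1) % 2 = 1 := by omega
        simp [this]
      · have : (2 * Nat.pair j N + 1) / 2 = Nat.pair j N := by omega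
        simp [this, hj1, hj]
    · exact absurd rfl hi

/-- radii -/
noncomputable def rad : ℕ → ℝ
  | 0 => 1
  | n + 1 => (1 / ((n : ℝ) + 1)) ^ 2 * (rad n / 4) ^ 2

theorem rad_pos : ∀ n, 0 < rad n
  | 0 => one_pos
  | n + 1 => by
    have := rad_pos n
    unfold rad; positivity

/-- the polynomials -/
noncomputable def PP (ι : ℕ → Fin 3) (a β : ℕ → ℂ) : ℕ → E3 → ℂ
  | 0 => fun _ => 0
  | n + 1 => fun z => (PP ι a β n z - (rad n / 4 : ℝ) * β n) ^ 2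
      - ((rad n / 4 : ℝ) : ℂ) ^ 2 * (z (ι n) - a n)

section
variable (ι : ℕ → Fin 3) (a β : ℕ → ℂ)

theorem PP_smooth : ∀ n, ContDiff ℂ ∞ (PP ι a β n)
  | 0 => contDiff_const
  | n + 1 => by
    have := PP_smooth n
    unfold PP
    exact ((this.sub contDiff_const).pow 2).sub
      (contDiff_const.mul ((contDiff_apply ℂ ℂ (ι n)).sub contDiff_const))

theorem PP_zero (hβ : ∀ n, β n ^ 2 = - a n) : ∀ n, PP ι a β n 0 = 0
  | 0 => rfl
  | n + 1 => by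
    have := PP_zero hβ n
    unfold PP
    rw [this]
    simp only [Pi.zero_apply]
    linear_combination ((rad n / 4 : ℝ) : ℂ) ^ 2 * hβ n

theorem PP_indep (hι : ∀ n, ι n ≠ 2) (z : E3) (t : ℂ) :
    ∀ n, PP ι a β n (z + t • Pi.single 2 1) = PP ι a β n z
  | 0 => rfl
  | n + 1 => by
    have := PP_indep hι z t n
    unfold PP
    rw [this]
    simp [Pi.single_eq_of_ne (hι n)]

theorem one_div_le (n : ℕ) : 1 / ((n : ℝ) + 1) ≤ 1 := by
  rw [div_le_one (by positivity)]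
  have : (0 : ℝ) ≤ n := n.cast_nonneg
  linarith

theorem coord_lt {z : E3} (hz : z ∈ ball (0 : E3) 1) (i : Fin 3) : ‖z i‖ < 1 := by
  have h1 : ‖z‖ < 1 := by simpa using hz
  exact (norm_le_pi_norm z i).trans_lt h1

theorem sq_bound (ha : ∀ n, ‖a n‖ ≤ 1) {z : E3}
    (hz : z ∈ ball (0 : E3) 1) (n : ℕ) (h : ‖PP ι a β (n + 1) z‖ ≤ 2 * rad (n + 1)) :
    ‖PP ι a β n z - (rad n / 4 : ℝ) * β n‖ ≤ 2 * (rad n / 4) := by
  set η : ℝ := rad n / 4 with hη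
  have ηpos : 0 < η := by have := rad_pos n; positivity
  have e1 : (PP ι a β n z - (η : ℂ) * β n) ^ 2 =
      PP ι a β (n + 1) z + (η : ℂ) ^ 2 * (z (ι n) - a n) := by
    simp only [PP, ← hη]; ring
  have h2 : ‖z (ι n) - a n‖ ≤ 2 := by
    have := norm_sub_le (z (ι n)) (a n)
    linarith [coord_lt hz (ι n), ha n]
  have h3 : rad (n + 1) ≤ η ^ 2 := by
    have : (1 / ((n : ℝ) + 1)) ^ 2 ≤ 1 := pow_le_one₀ (by positivity) (one_div_le n)
    simp only [rad, ← hη]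
    nlinarith [sq_nonneg η]
  have h4 : ‖PP ι a β n z - (η : ℂ) * β n‖ ^ 2 ≤ (2 * η) ^ 2 := by
    rw [← norm_pow, e1]
    refine (norm_add_le _ _).trans ?_
    rw [norm_mul, norm_pow, Complex.norm_real, Real.norm_of_nonneg ηpos.le]
    nlinarith [sq_nonneg η]
  exact (pow_le_pow_iff_left₀ (norm_nonneg _) (by positivity) two_ne_zero).1 h4

theorem nested (ha : ∀ n, ‖a n‖ ≤ 1) (hβ : ∀ n, β n ^ 2 = - a n) {z : E3}
    (hz : z ∈ ball (0 : E3) 1) (n : ℕ) (h : ‖PP ι a β (n + 1) z‖ ≤ 2 * rad (n + 1)) :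
    ‖PP ι a β n z‖ < rad n := by
  have h1 := sq_bound ι a β ha hz n h
  have hb : ‖β n‖ ≤ 1 := by
    have : ‖β n‖ ^ 2 ≤ 1 := by rw [← norm_pow, hβ n, norm_neg]; exact ha n
    nlinarith [norm_nonneg (β n)]
  have rp := rad_pos n
  have h2 : ‖((rad n / 4 : ℝ) : ℂ) * β n‖ ≤ rad n / 4 := by
    rw [norm_mul, Complex.norm_real, Real.norm_of_nonneg (by positivity)]
    nlinarith
  have h3 := norm_add_le (PP ι a β n z - (rad n / 4 : ℝ) * β n) (((rad n / 4 : ℝ) : ℂ) * β n)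
  rw [sub_add_cancel] at h3
  linarith

theorem nested' (ha : ∀ n, ‖a n‖ ≤ 1) (hβ : ∀ n, β n ^ 2 = - a n) {z : E3}
    (hz : z ∈ ball (0 : E3) 1) {m n : ℕ} (hmn : m < n) (h : ‖PP ι a β n z‖ ≤ 2 * rad n) :
    ‖PP ι a β m z‖ < rad m := by
  induction n with
  | zero => omega
  | succ n ih =>
    have h1 := nested ι a β ha hβ hz n h
    rcases Nat.lt_succ_iff_lt_or_eq.1 hmn with h2 | h2
    · exact ih h2 (by linarith [rad_pos n])
    · rw [h2]; exact h1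

theorem shell_unique (ha : ∀ n, ‖a n‖ ≤ 1) (hβ : ∀ n, β n ^ 2 = - a n) {z : E3}
    (hz : z ∈ ball (0 : E3) 1) :
    ∃ n, ∀ m, m ≠ n → ‖PP ι a β m z‖ < rad m ∨ 2 * rad m < ‖PP ι a β m z‖ := by
  by_cases h : ∃ n, rad n ≤ ‖PP ι a β n z‖ ∧ ‖PP ι a β n z‖ ≤ 2 * rad n
  · obtain ⟨n, h1, h2⟩ := h
    refine ⟨n, fun m hm => ?_⟩
    rcases lt_or_gt_of_ne hm with h3 | h3
    · exact Or.inl (nested' ι a β ha hβ hz h3 h2)
    · right
      by_contra h4
      have := nested' ι a β ha hβ hz h3 (not_lt.1 h4)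
      linarith
  · refine ⟨0, fun m _ => ?_⟩
    by_contra h2
    push Not at h2
    exact h ⟨m, h2.1, h2.2⟩

theorem no_disc (ha : ∀ n, ‖a n‖ ≤ 1)
    (hen : ∀ i : Fin 3, i ≠ 2 → ∀ V : Set ℂ, IsOpen V → V.Nonempty → V ⊆ ball 0 1 →
      ∀ N : ℕ, ∃ n, N ≤ n ∧ ι n = i ∧ a n ∈ V)
    (f : ℂ → E3) (hf : DifferentiableOn ℂ f (ball 0 1))
    (hU : ∀ t ∈ ball (0 : ℂ) 1, f t ∈ ball (0 : E3) 1)
    (hP : ∀ t ∈ ball (0 : ℂ) 1, ∀ n, ‖PP ι a β n (f t)‖ ≤ rad n) (i : Fin 3) (hi : i ≠ 2)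
    (t₀ : ℂ) (ht₀ : t₀ ∈ ball (0 : ℂ) 1) : deriv (fun t => f t i) t₀ = 0 := by
  by_contra hne
  set g : ℂ → ℂ := fun t => f t i with hg
  have hgd : DifferentiableOn ℂ g (ball 0 1) := differentiableOn_pi.1 hf i
  have hga : AnalyticOnNhd ℂ g (ball 0 1) := hgd.analyticOnNhd isOpen_ball
  have hcont : ContinuousAt (deriv g) t₀ := (hga.deriv t₀ ht₀).continuousAt
  set m : ℝ := ‖deriv g t₀‖ / 2 with hm
  have mpos : 0 < m := by have := norm_pos_iff.2 hne; positivity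
  have ev1 : ∀ᶠ t in 𝓝 t₀, m < ‖deriv g t‖ :=
    hcont.norm.eventually (lt_mem_nhds (by have := norm_pos_iff.2 hne; simp only [hm]; linarith))
  obtain ⟨s, spos, hs⟩ := Metric.mem_nhds_iff.1 (ev1.and (isOpen_ball.mem_nhds ht₀))
  set σ : ℝ := s / 2 with hσ
  have σpos : 0 < σ := by positivity
  have hmap : map g (𝓝 t₀) = 𝓝 (g t₀) := (hga t₀ ht₀).hasStrictDerivAt.map_nhds_eq hne
  have him : g '' ball t₀ σ ∈ 𝓝 (g t₀) := by
    rw [← hmap]; exact image_mem_map (ball_mem_nhds _ σpos)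
  obtain ⟨V, hVsub, hVo, hVm⟩ := _root_.mem_nhds_iff.1 him
  have hV1 : V ⊆ ball 0 1 := by
    intro x hx
    obtain ⟨t, ht, rfl⟩ := hVsub hx
    have : t ∈ ball (0 : ℂ) 1 := (hs (ball_subset_ball (by linarith) ht)).2
    simpa using coord_lt (hU t this) i
  obtain ⟨N, hN⟩ := exists_nat_one_div_lt (K := ℝ) (ε := m * σ / 5) (by positivity)
  obtain ⟨n, hn, hιn, han⟩ := hen i hi V hVo ⟨_, hVm⟩ hV1 N
  obtain ⟨t₁, ht₁, hgt₁⟩ := hVsub han
  set d : ℝ := 1 / ((n : ℝ) + 1) with hd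
  have dpos : 0 < d := by positivity
  have d1 : d ≤ 1 := one_div_le n
  have dlt : d < m * σ / 5 := by
    refine lt_of_le_of_lt ?_ hN
    exact Nat.one_div_le_one_div hn
  set η : ℝ := rad n / 4 with hη
  have ηpos : 0 < η := by have := rad_pos n; positivity
  have hcb : closedBall t₁ σ ⊆ ball t₀ s := by
    intro t ht
    have h1 : dist t t₁ ≤ σ := ht
    have h2 : dist t₁ t₀ < σ := ht₁
    have := dist_triangle t t₁ t₀
    show dist t t₀ < s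
    linarith
  have hcb1 : closedBall t₁ σ ⊆ ball (0 : ℂ) 1 := fun t ht => (hs (hcb ht)).2
  have ht₁1 : t₁ ∈ ball (0 : ℂ) 1 := hcb1 (mem_closedBall_self σpos.le)
  set p : ℂ → ℂ := fun t => PP ι a β n (f t) - (η : ℂ) * β n with hp
  set q : ℂ → ℂ := fun t => PP ι a β (n + 1) (f t) with hq
  have hPd : ∀ k, DifferentiableOn ℂ (fun t => PP ι a β k (f t)) (ball 0 1) := fun k =>
    ((PP_smooth ι a β k).differentiable (by simp)).comp_differentiableOn hf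
  have hpd : DifferentiableOn ℂ p (ball 0 1) := (hPd n).sub_const _
  have hqd : DifferentiableOn ℂ q (ball 0 1) := hPd (n + 1)
  have hqeq : q = fun t => p t ^ 2 - (η : ℂ) ^ 2 * (g t - a n) := by
    funext t
    simp only [hq, hp, hg, PP, ← hη, hιn]
  have hqb : ∀ t ∈ ball (0 : ℂ) 1, ‖q t‖ ≤ d ^ 2 * η ^ 2 := fun t ht => hP t ht (n + 1)
  have hpb : ∀ t ∈ ball (0 : ℂ) 1, ‖p t‖ ≤ 2 * η := fun t ht =>
    sq_bound ι a β ha (hU t ht) n (by linarith [hP t ht (n + 1), rad_pos (n + 1)])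
  have hp1 : ‖p t₁‖ ≤ d * η := by
    have h1 : q t₁ = p t₁ ^ 2 := by rw [hqeq]; simp [hgt₁]
    have h2 := hqb t₁ ht₁1
    rw [h1, norm_pow, ← mul_pow] at h2
    exact (pow_le_pow_iff_left₀ (norm_nonneg _) (by positivity) two_ne_zero).1 h2
  have dc : ∀ h : ℂ → ℂ, DifferentiableOn ℂ h (ball 0 1) → DiffContOnCl ℂ h (ball t₁ σ) := by
    intro h hh
    apply DifferentiableOn.diffContOnCl
    rw [closure_ball _ σpos.ne']
    exact hh.mono hcb1
  have c1 : ‖deriv p t₁‖ ≤ 2 * η / σ :=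
    norm_deriv_le_of_forall_mem_sphere_norm_le σpos (dc p hpd)
      fun t ht => hpb t (hcb1 (sphere_subset_closedBall ht))
  have c2 : ‖deriv q t₁‖ ≤ d ^ 2 * η ^ 2 / σ :=
    norm_deriv_le_of_forall_mem_sphere_norm_le σpos (dc q hqd)
      fun t ht => hqb t (hcb1 (sphere_subset_closedBall ht))
  have hpa : HasDerivAt p (deriv p t₁) t₁ :=
    (hpd.differentiableAt (isOpen_ball.mem_nhds ht₁1)).hasDerivAt
  have hga' : HasDerivAt g (deriv g t₁) t₁ :=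
    (hgd.differentiableAt (isOpen_ball.mem_nhds ht₁1)).hasDerivAt
  have hder : deriv q t₁ = 2 * p t₁ * deriv p t₁ - (η : ℂ) ^ 2 * deriv g t₁ := by
    have := (hpa.pow 2).sub ((hga'.sub_const (a n)).const_mul ((η : ℂ) ^ 2))
    rw [hqeq]
    have h2 : deriv (fun t => p t ^ 2 - (η : ℂ) ^ 2 * (g t - a n)) t₁ = _ := this.deriv
    rw [h2]; simp
  have hm1 : m < ‖deriv g t₁‖ := (hs (hcb (mem_closedBall_self σpos.le))).1
  have h5 : ‖(η : ℂ) ^ 2 * deriv g t₁‖ ≤ ‖2 * p t₁ * deriv p t₁‖ + ‖deriv q t₁‖ := by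
    have : (η : ℂ) ^ 2 * deriv g t₁ = 2 * p t₁ * deriv p t₁ - deriv q t₁ := by rw [hder]; ring
    rw [this]; exact norm_sub_le _ _
  rw [norm_mul, norm_pow, Complex.norm_real, Real.norm_of_nonneg ηpos.le, norm_mul, norm_mul] at h5
  have h6 : ‖(2 : ℂ)‖ = 2 := by simp
  rw [h6] at h5
  have h7 : 2 * ‖p t₁‖ * ‖deriv p t₁‖ ≤ 2 * (d * η) * (2 * η / σ) :=
    mul_le_mul (by linarith) c1 (norm_nonneg _) (by positivity)
  have h8 : η ^ 2 * m ≤ 2 * (d * η) * (2 * η / σ) + d ^ 2 * η ^ 2 / σ := by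
    have : η ^ 2 * m ≤ η ^ 2 * ‖deriv g t₁‖ := mul_le_mul_of_nonneg_left hm1.le (by positivity)
    linarith
  have h9 : 2 * (d * η) * (2 * η / σ) + d ^ 2 * η ^ 2 / σ = η ^ 2 * ((4 * d + d ^ 2) / σ) := by
    field_simp; ring
  rw [h9] at h8
  have h10 : m ≤ (4 * d + d ^ 2) / σ := le_of_mul_le_mul_left h8 (by positivity)
  rw [le_div_iff₀ σpos] at h10
  nlinarith

end

end Pool.Agent.H22Z.Rossi
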