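import Pool.Agent.H22Z.Rossi.Calc
import Pool.Agent.H22Z.Rossi.Tubes

/-! A smooth pseudoconvex hypersurface in complex dimension three, Levi degenerate at every point,
with no holomorphic disc through the origin. -/

set_option autoImplicit false

open scoped Topology ContDiff
open Filter Complex Metric

namespace Pool.Agent.H22Z.Rossi

theorem L_sub_lin (u : E3 → ℝ) (hu : ContDiff ℝ ∞ u) (l : E3 →L[ℝ] ℝ) (z w : E3) :
    L (fun x => u x - l x) z w = L u z w := by
  have h1 : fderiv ℝ (fun x => u x - l x) = fun x => fderiv ℝ u x - l := by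
    funext x
    exact (((hu.differentiable (by simp)) x).hasFDerivAt.sub l.hasFDerivAt).fderiv
  unfold L
  rw [h1, fderiv_sub_const]

theorem exists_null (A : E3 →L[ℝ] ℝ) (B : E3 →L[ℂ] ℂ) :
    ∃ w : E3, w ≠ 0 ∧ A w = 0 ∧ A (I • w) = 0 ∧ B w = 0 := by
  let J : E3 →ₗ[ℝ] E3 := ((I • ContinuousLinearMap.id ℂ E3).restrictScalars ℝ).toLinearMap
  let T : E3 →ₗ[ℝ] ℝ × ℝ × ℂ :=
    A.toLinearMap.prod ((A.toLinearMap.comp J).prod (B.restrictScalars ℝ).toLinearMap)
  have hk : LinearMap.ker T ≠ ⊥ := by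
    apply LinearMap.ker_ne_bot_of_finrank_lt
    simp [Module.finrank_pi_fintype, Module.finrank_prod]
  obtain ⟨w, hw, hw0⟩ := Submodule.exists_mem_ne_zero_of_ne_bot hk
  have : T w = 0 := hw
  simp only [T, J, LinearMap.prod_apply, Prod.ext_iff] at this
  exact ⟨w, hw0, this.1, this.2.1, this.2.2⟩

theorem counterexample : ∃ ρ : E3 → ℝ, ContDiff ℝ ∞ ρ ∧
    (∀ z ∈ ball (0 : E3) 1, fderiv ℝ ρ z ≠ 0) ∧
    (∀ z ∈ ball (0 : E3) 1, ∀ w, 0 ≤ L ρ z w) ∧ ρ 0 = 0 ∧
    (∀ z ∈ ball (0 : E3) 1, ∃ w : E3, w ≠ 0 ∧ fderiv ℝ ρ z w = 0 ∧ fderiv ℝ ρ z (I • w) = 0 ∧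
      L ρ z w = 0) ∧
    ∀ f : ℂ → E3, DifferentiableOn ℂ f (ball 0 1) → f 0 = 0 →
      (∀ t ∈ ball (0 : ℂ) 1, f t ∈ ball (0 : E3) 1 ∧ ρ (f t) = 0) →
      ∀ t ∈ ball (0 : ℂ) 1, f t = 0 := by
  obtain ⟨ι, a, hι, ha, hen⟩ := exists_enum
  have hβ0 : ∀ n, ∃ b : ℂ, b ^ 2 = - a n := fun n => IsAlgClosed.exists_pow_nat_eq _ two_pos
  choose β hβ using hβ0
  let φ : ContDiffBump (0 : E3) := ⟨1, 2, one_pos, one_lt_two⟩
  set g : ℕ → E3 → ℂ := fun n z => ((rad n : ℝ) : ℂ)⁻¹ * PP ι a β n z with hg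
  have gs : ∀ n, ContDiff ℂ ∞ (g n) := fun n => contDiff_const.mul (PP_smooth ι a β n)
  have gnorm : ∀ n z, ‖g n z‖ = ‖PP ι a β n z‖ / rad n := by
    intro n z
    simp only [hg, norm_mul, norm_inv, Complex.norm_real, Real.norm_of_nonneg (rad_pos n).le]
    ring
  set F : ℕ → E3 → ℝ := fun n z => φ z * psi (g n z) with hF
  have Fs : ∀ n, ContDiff ℝ ∞ (F n) := fun n =>
    φ.contDiff.mul (psi_smooth.comp ((gs n).restrict_scalars ℝ))
  have Fc : ∀ n, HasCompactSupport (F n) := fun n => φ.hasCompactSupport.mul_right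
  have φ1 : ∀ z ∈ ball (0 : E3) 1, φ z = 1 := fun z hz =>
    φ.one_of_mem_closedBall (ball_subset_closedBall hz)
  have Feq : ∀ n, ∀ z ∈ ball (0 : E3) 1, F n z = psi (g n z) := fun n z hz => by
    simp only [hF, φ1 z hz, one_mul]
  have FL : ∀ n, ∀ z ∈ ball (0 : E3) 1, ∀ w,
      L (F n) z w = L psi (g n z) (fderiv ℂ (g n) z w) := by
    intro n z hz w
    rw [← L_comp psi (psi_smooth.of_le (by norm_cast)) (g n) ((gs n).of_le (by norm_cast))]
    apply L_congr
    filter_upwards [isOpen_ball.mem_nhds hz] with x hx using Feq n x hx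
  obtain ⟨κ, κpos, us, usum, uL⟩ := exists_series F Fs Fc
  set u : E3 → ℝ := fun x => ∑' n, κ n * F n x with hu
  let l : E3 →L[ℝ] ℝ := reCLM.comp ((ContinuousLinearMap.proj (R := ℂ) (2 : Fin 3)).restrictScalars ℝ)
  have hl : ∀ x : E3, l x = (x 2).re := fun x => rfl
  have ρs : ContDiff ℝ ∞ (fun x => u x - l x) := us.sub l.contDiff
  have unn : ∀ x, 0 ≤ u x := fun x => tsum_nonneg fun n =>
    mul_nonneg (κpos n).le (mul_nonneg φ.nonneg (psi_nonneg _))
  refine ⟨fun x => u x - l x, ρs, ?_, ?_, ?_, ?_, ?_⟩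
  · intro z hz h0
    let e : E3 := Pi.single 2 1
    have hline : HasDerivAt (fun t : ℝ => z + t • e) e 0 := by
      simpa using ((hasDerivAt_id (0 : ℝ)).smul_const e).const_add z
    have h1 : HasFDerivAt (fun x => u x - l x) (0 : E3 →L[ℝ] ℝ) (z + (0 : ℝ) • e) := by
      rw [zero_smul, add_zero, ← h0]
      exact ((ρs.differentiable (by simp)) z).hasFDerivAt
    have h2 := h1.comp_hasDerivAt (0 : ℝ) hline
    have hev : ∀ᶠ t : ℝ in 𝓝 0, z + t • e ∈ ball (0 : E3) 1 := by
      apply hline.continuousAt.eventually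
      apply isOpen_ball.mem_nhds
      simpa using hz
    have h3 : ((fun x => u x - l x) ∘ fun t : ℝ => z + t • e) =ᶠ[𝓝 0]
        fun t => (u z - l z) - t := by
      filter_upwards [hev] with t ht
      have e1 : u (z + t • e) = u z := by
        simp only [hu]
        congr 1
        funext n
        rw [Feq n _ ht, Feq n _ hz]
        simp only [hg]
        have := PP_indep ι a β hι z (t : ℂ) n
        rw [← this]
        rfl
      simp only [Function.comp, e1, hl]
      simp [e]
      ring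
    have h4 : HasDerivAt (fun t : ℝ => (u z - l z) - t) (-1) 0 := by
      simpa using (hasDerivAt_id (0 : ℝ)).const_sub (u z - l z)
    have h5 := (h2.congr_of_eventuallyEq h3.symm).unique h4
    simp at h5
  · intro z hz w
    rw [L_sub_lin u us]
    refine (uL z w).nonneg fun n => mul_nonneg (κpos n).le ?_
    rw [FL n z hz]; exact L_psi_nonneg _ _
  · have : u 0 = 0 := by
      simp only [hu]
      have : ∀ n, κ n * F n 0 = 0 := by
        intro n
        rw [Feq n 0 (mem_ball_self one_pos)]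
        simp only [hg, PP_zero ι a β hβ n, mul_zero, psi_zero]
      simp [this]
    simp [this]
  · intro z hz
    obtain ⟨n, hn⟩ := shell_unique ι a β ha hβ hz
    obtain ⟨w, hw0, h1, h2, h3⟩ := exists_null (fderiv ℝ (fun x => u x - l x) z) (fderiv ℂ (g n) z)
    refine ⟨w, hw0, h1, h2, ?_⟩
    rw [L_sub_lin u us]
    refine (uL z w).unique ?_
    have : (fun m => κ m * L (F m) z w) = fun _ => 0 := by
      funext m
      rw [FL m z hz]
      by_cases hm : m = n
      · rw [hm, h3, L_psi_zero, mul_zero]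
      · rw [L_psi_out, mul_zero]
        rw [gnorm]
        rcases hn m hm with h | h
        · left; rwa [div_lt_one (rad_pos m)]
        · right; rwa [lt_div_iff₀ (rad_pos m)]
    rw [this]; exact hasSum_zero
  · intro f hf f0 hin
    have hd : ∀ i, DifferentiableOn ℂ (fun t => f t i) (ball 0 1) := differentiableOn_pi.1 hf
    have hre : ∀ t ∈ ball (0 : ℂ) 1, (f t 2).re = u (f t) := by
      intro t ht
      have := (hin t ht).2
      simp only [hl] at this
      linarith
    have h1le : ∀ t ∈ ball (0 : ℂ) 1, 1 ≤ ‖1 + f t 2‖ := by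
      intro t ht
      have h1 := Complex.re_le_norm (1 + f t 2)
      have h2 := unn (f t)
      rw [← hre t ht] at h2
      simp at h1; linarith
    have h2z : ∀ t ∈ ball (0 : ℂ) 1, f t 2 = 0 := by
      have hne : ∀ t ∈ ball (0 : ℂ) 1, 1 + f t 2 ≠ 0 := fun t ht h => by
        have := h1le t ht
        rw [h] at this; simp at this; linarith
      have hinv : DifferentiableOn ℂ (fun t => (1 + f t 2)⁻¹) (ball 0 1) :=
        ((hd 2).const_add 1).inv hne
      have hmax : IsMaxOn (norm ∘ fun t => (1 + f t 2)⁻¹) (ball 0 1) 0 := by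
        intro t ht
        simp only [Set.mem_setOf_eq, Function.comp, f0, Pi.zero_apply, add_zero, inv_one, norm_one,
          norm_inv]
        exact inv_le_one_of_one_le₀ (h1le t ht)
      have := Complex.eqOn_of_isPreconnected_of_isMaxOn_norm (convex_ball 0 1).isPreconnected
        isOpen_ball hinv (mem_ball_self one_pos) hmax
      intro t ht
      have h3 := this ht
      simp only [Function.const, f0, Pi.zero_apply, add_zero, inv_one, inv_eq_one] at h3
      linear_combination h3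
    have hP : ∀ t ∈ ball (0 : ℂ) 1, ∀ n, ‖PP ι a β n (f t)‖ ≤ rad n := by
      intro t ht n
      have hu0 : u (f t) = 0 := by rw [← hre t ht, h2z t ht]; rfl
      have hle : κ n * F n (f t) ≤ u (f t) :=
        (usum (f t)).le_tsum n fun m _ =>
          mul_nonneg (κpos m).le (mul_nonneg φ.nonneg (psi_nonneg _))
      rw [hu0, Feq n _ (hin t ht).1] at hle
      have h0 : psi (g n (f t)) = 0 := by
        have := psi_nonneg (g n (f t))
        have := κpos n
        nlinarith
      have := norm_le_of_psi h0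
      rwa [gnorm, div_le_one (rad_pos n)] at this
    intro t ht
    funext i
    by_cases hi : i = 2
    · rw [hi]; exact h2z t ht
    · have hz := no_disc ι a β ha hen f hf (fun t ht => (hin t ht).1) hP i hi
      have := isOpen_ball.is_const_of_deriv_eq_zero (convex_ball (0 : ℂ) 1).isPreconnected (hd i)
        (fun s hs => hz s hs) ht (mem_ball_self one_pos)
      simpa [f0] using this

end Pool.Agent.H22Z.Rossi
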